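import Mathlib

/-!
# Embedded eigenvalues of open quantum graphs with irrational lengths

A finite graph (loops and multiple edges allowed) with half-lines (leads) attached, its Kirchhoff
Laplacian and its eigenvalues are defined below.  The theorem `result` shows that a loopless graph
with rationally independent edge lengths can have an embedded eigenvalue.
-/

open Set Filter Topology MeasureTheory

namespace Pool.Agent.Results.MP_332ffb_mp.IrrationalEmbedded

/-- A finite graph with leads: `src e` and `tgt e` are the two end vertices of the edge `e`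
(multiple edges are allowed, and `e` is a loop when `src e = tgt e`), and `leads w` is the number of
half-lines attached at the vertex `w`. -/
structure OpenGraph (V E : Type) where
  /-- initial vertex of an edge -/
  src : E → V
  /-- final vertex of an edge -/
  tgt : E → V
  /-- number of leads at a vertex -/
  leads : V → ℕ

namespace OpenGraph

variable {V E : Type} [Fintype V] [DecidableEq V] [Fintype E] (G : OpenGraph V E)

/-- The degree of a vertex after the leads are attached; a loop counts twice. -/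
def degree (v : V) : ℕ :=
  (Finset.univ.filter (fun e => G.src e = v)).card +
    (Finset.univ.filter (fun e => G.tgt e = v)).card + G.leads v

/-- Two vertices are joined by an edge. -/
def Adj (v w : V) : Prop := ∃ e, (G.src e = v ∧ G.tgt e = w) ∨ (G.src e = w ∧ G.tgt e = v)

/-- The standing assumptions on the graph: it is (nonempty and) connected, at least one lead is
attached, and after the leads are attached no vertex has degree two. -/
structure Admissible : Prop where
  nonempty : Nonempty V
  connected : ∀ v w : V, Relation.ReflTransGen G.Adj v w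
  exists_lead : ∃ w, 1 ≤ G.leads w
  degree_ne_two : ∀ v, G.degree v ≠ 2

/-- No edge is a loop. -/
def Loopless : Prop := ∀ e, G.src e ≠ G.tgt e

end OpenGraph

/-- `f` is a (classical) solution of `-f'' = lam * f` on the closed interval `s`, and `f'` is its
derivative there (one-sided at the ends of `s`). -/
structure Solves (lam : ℝ) (s : Set ℝ) (f f' : ℝ → ℂ) : Prop where
  hasDeriv : ∀ x ∈ s, HasDerivWithinAt f (f' x) s x
  hasDeriv₂ : ∀ x ∈ s, HasDerivWithinAt f' (-((lam : ℂ) * f x)) s x

/-- A nonzero square-integrable eigenfunction, for the eigenvalue `lam`, of the Kirchhoff Laplacian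
`-d²/dx²` of the metric graph with edge lengths `ℓ`: the edge `e` is the interval `[0, ℓ e]` with
`0` at `src e` and `ℓ e` at `tgt e`, and each lead is `[0, ∞)` with `0` at its vertex.  The function
is continuous at the vertices (with value `val v` at `v`), and at each vertex the outgoing
derivatives sum to zero. -/
structure Eigenfunction {V E : Type} [Fintype V] [DecidableEq V] [Fintype E]
    (G : OpenGraph V E) (ℓ : E → ℝ) (lam : ℝ) where
  /-- the function on the edges -/
  edge : E → ℝ → ℂ
  /-- its derivative on the edges -/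
  edge' : E → ℝ → ℂ
  /-- the function on the leads -/
  lead : (w : V) → Fin (G.leads w) → ℝ → ℂ
  /-- its derivative on the leads -/
  lead' : (w : V) → Fin (G.leads w) → ℝ → ℂ
  /-- the values at the vertices -/
  val : V → ℂ
  edge_solves : ∀ e, Solves lam (Icc 0 (ℓ e)) (edge e) (edge' e)
  lead_solves : ∀ w i, Solves lam (Ici 0) (lead w i) (lead' w i)
  lead_memLp : ∀ w i, MemLp (lead w i) 2 (volume.restrict (Ici (0 : ℝ)))
  edge_src : ∀ e, edge e 0 = val (G.src e)
  edge_tgt : ∀ e, edge e (ℓ e) = val (G.tgt e)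
  lead_val : ∀ w i, lead w i 0 = val w
  kirchhoff : ∀ w, (∑ e ∈ Finset.univ.filter (fun e => G.src e = w), edge' e 0) -
      (∑ e ∈ Finset.univ.filter (fun e => G.tgt e = w), edge' e (ℓ e)) +
      ∑ i, lead' w i 0 = 0
  nonzero : (∃ e, ∃ x ∈ Icc 0 (ℓ e), edge e x ≠ 0) ∨ (∃ w i, ∃ x ∈ Ici (0 : ℝ), lead w i x ≠ 0)

/-- `lam` is an eigenvalue: it admits a nonzero square-integrable eigenfunction. -/
def IsEigenvalue {V E : Type} [Fintype V] [DecidableEq V] [Fintype E]
    (G : OpenGraph V E) (ℓ : E → ℝ) (lam : ℝ) : Prop :=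
  Nonempty (Eigenfunction G ℓ lam)

/-- The graph with two vertices `0` and `1`, five parallel edges from `0` to `1`, and `N` leads
attached at the vertex `0`. -/
def pumpkin (N : ℕ) : OpenGraph (Fin 2) (Fin 5) where
  src := fun _ => 0
  tgt := fun _ => 1
  leads := fun w => if w = 0 then N else 0

/-! ### Rational functions with finitely many zeros -/

lemma finite_zeros {ι : Type} [Fintype ι] [DecidableEq ι] (c : ι → ℝ) (hc0 : ∀ i, c i ≠ 0)
    (hc : ∀ i j, i ≠ j → c i ^ 2 ≠ c j ^ 2) (m : ι → ℝ) (hm : m ≠ 0) :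
    {x : ℝ | ∑ i, m i * (c i / (1 + (c i * x) ^ 2)) = 0}.Finite := by
  classical
  set q : Polynomial ℝ := ∑ i, Polynomial.C (m i * c i) *
    ∏ j ∈ Finset.univ.erase i, (1 + Polynomial.C (c j ^ 2) * Polynomial.X) with hq
  have hq0 : q ≠ 0 := by
    intro h0
    obtain ⟨i, hi⟩ := Function.ne_iff.mp hm
    have hev : q.eval (-(1 / c i ^ 2)) = 0 := by rw [h0]; simp
    rw [hq, Polynomial.eval_finsetSum, Finset.sum_eq_single i] at hev
    · rw [Polynomial.eval_mul, Polynomial.eval_C, Polynomial.eval_prod] at hev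
      rcases mul_eq_zero.mp hev with h | h
      · rcases mul_eq_zero.mp h with h | h
        · exact hi h
        · exact hc0 i h
      · rw [Finset.prod_eq_zero_iff] at h
        obtain ⟨j, hj, hj'⟩ := h
        have hji : j ≠ i := (Finset.mem_erase.mp hj).1
        have hci : c i ^ 2 ≠ 0 := pow_ne_zero _ (hc0 i)
        simp only [Polynomial.eval_add, Polynomial.eval_one, Polynomial.eval_mul,
          Polynomial.eval_C, Polynomial.eval_X] at hj'
        apply hc i j hji.symm
        have h5 : c j ^ 2 * -(1 / c i ^ 2) = -(c j ^ 2 / c i ^ 2) := by ring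
        rw [h5] at hj'
        have h6 : c j ^ 2 / c i ^ 2 = 1 := by linarith
        rw [div_eq_one_iff_eq hci] at h6
        exact h6.symm
    · intro k _ hki
      rw [Polynomial.eval_mul, Polynomial.eval_prod]
      have : ∏ j ∈ Finset.univ.erase k,
          Polynomial.eval (-(1 / c i ^ 2)) (1 + Polynomial.C (c j ^ 2) * Polynomial.X) = 0 := by
        apply Finset.prod_eq_zero (Finset.mem_erase.mpr ⟨hki.symm, Finset.mem_univ i⟩)
        have hci : c i ^ 2 ≠ 0 := pow_ne_zero _ (hc0 i)
        simp only [Polynomial.eval_add, Polynomial.eval_one, Polynomial.eval_mul,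
          Polynomial.eval_C, Polynomial.eval_X]
        have h5 : c i ^ 2 * -(1 / c i ^ 2) = -(c i ^ 2 / c i ^ 2) := by ring
        rw [h5, div_self hci]
        ring
      rw [this, mul_zero]
    · simp
  have hp0 : Polynomial.expand ℝ 2 q ≠ 0 := by
    rwa [Ne, Polynomial.expand_eq_zero (by norm_num)]
  refine Set.Finite.subset (Polynomial.expand ℝ 2 q).roots.toFinset.finite_toSet ?_
  intro x hx
  simp only [mem_ofPred_eq] at hx
  simp only [Finset.mem_coe, Multiset.mem_toFinset]
  rw [Polynomial.mem_roots hp0, Polynomial.IsRoot, Polynomial.expand_eval, hq,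
    Polynomial.eval_finsetSum]
  have hpos : ∀ j, (1 + (c j * x) ^ 2) ≠ 0 := fun j => by positivity
  have hP : (∏ j, (1 + (c j * x) ^ 2)) * ∑ i, m i * (c i / (1 + (c i * x) ^ 2)) = 0 := by
    rw [hx, mul_zero]
  rw [Finset.mul_sum] at hP
  rw [← hP]
  refine Finset.sum_congr rfl fun i _ => ?_
  rw [Polynomial.eval_mul, Polynomial.eval_C, Polynomial.eval_prod,
    ← Finset.mul_prod_erase Finset.univ _ (Finset.mem_univ i)]
  have : ∏ j ∈ Finset.univ.erase i,
      Polynomial.eval (x ^ 2) (1 + Polynomial.C (c j ^ 2) * Polynomial.X) =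
      ∏ j ∈ Finset.univ.erase i, (1 + (c j * x) ^ 2) := by
    refine Finset.prod_congr rfl fun j _ => ?_
    simp only [Polynomial.eval_add, Polynomial.eval_one, Polynomial.eval_mul,
      Polynomial.eval_C, Polynomial.eval_X]
    ring
  rw [this]
  have hi := hpos i
  have h7 : (1 + (c i * x) ^ 2) * (c i / (1 + (c i * x) ^ 2)) = c i := mul_div_cancel₀ _ hi
  calc m i * c i * ∏ j ∈ Finset.univ.erase i, (1 + (c j * x) ^ 2)
      = m i * ((1 + (c i * x) ^ 2) * (c i / (1 + (c i * x) ^ 2))) *
          ∏ j ∈ Finset.univ.erase i, (1 + (c j * x) ^ 2) := by rw [h7]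
    _ = _ := by ring

/-- The zero set of a differentiable function whose derivative has finitely many zeros is
countable. -/
lemma countable_zeros (g g' : ℝ → ℝ) (hg : ∀ x, HasDerivAt g (g' x) x)
    (hfin : {x | g' x = 0}.Finite) : {x | g x = 0}.Countable := by
  have h1 : {x | g x = 0} ⊆ {x | g' x = 0} ∪
      {x ∈ {x | g x = 0} | 𝓝[{x | g x = 0} ∩ Ioi x] x = ⊥} := by
    intro x hx
    by_cases h : g' x = 0
    · left; exact h
    · right
      refine ⟨hx, ?_⟩
      have hev := (hg x).eventually_ne (c := 0) h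
      rw [← Filter.empty_mem_iff_bot]
      have hsub : 𝓝[{x | g x = 0} ∩ Ioi x] x ≤ 𝓝[≠] x :=
        nhdsWithin_mono _ (fun y hy => ne_of_gt hy.2)
      have h2 : ∀ᶠ z in 𝓝[{x | g x = 0} ∩ Ioi x] x, g z ≠ 0 := hsub hev
      have h3 : ∀ᶠ z in 𝓝[{x | g x = 0} ∩ Ioi x] x, z ∈ {x | g x = 0} ∩ Ioi x :=
        self_mem_nhdsWithin
      filter_upwards [h2, h3] with z hz hz'
      exact hz hz'.1
  exact (hfin.countable.union countable_setOfPred_isolated_right_within).mono h1

/-- The numerical data of the example: five integers with sum zero and with sum of reciprocals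
zero. -/
def cc : Fin 5 → ℝ := ![3, -4, -15, -24, 40]

lemma cc_ne_zero (i : Fin 5) : cc i ≠ 0 := by
  fin_cases i <;> simp [cc]

lemma cc_sq_ne (i j : Fin 5) (h : i ≠ j) : cc i ^ 2 ≠ cc j ^ 2 := by
  fin_cases i <;> fin_cases j <;> first | exact absurd rfl h | (simp [cc]; try norm_num)

/-- the phases `k * ℓ` -/
noncomputable def kap (x : ℝ) (i : Fin 5) : ℝ :=
  2 * Real.arctan (cc i * x) + (if cc i < 0 then 2 * Real.pi else 0)

lemma hasDerivAt_kap (i : Fin 5) (x : ℝ) :
    HasDerivAt (fun x => kap x i) (2 * (cc i / (1 + (cc i * x) ^ 2))) x := by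
  unfold kap
  have h1 : HasDerivAt (fun x : ℝ => cc i * x) (cc i) x := by
    simpa using (hasDerivAt_id x).const_mul (cc i)
  have h2 := (h1.arctan.const_mul 2).add_const (if cc i < 0 then 2 * Real.pi else 0)
  have h3 : 2 * (1 / (1 + (cc i * x) ^ 2) * cc i) = 2 * (cc i / (1 + (cc i * x) ^ 2)) := by ring
  rw [h3] at h2
  exact h2

lemma exists_irrational : ∃ x ∈ Ioo (0 : ℝ) 1, ∀ m : Fin 5 → ℤ, m ≠ 0 →
    ∑ i, (m i : ℝ) * kap x i ≠ 0 := by
  by_contra hcon
  push Not at hcon
  have hsub : Ioo (0 : ℝ) 1 ⊆ ⋃ m : {m : Fin 5 → ℤ // m ≠ 0},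
      {x : ℝ | ∑ i, ((m : Fin 5 → ℤ) i : ℝ) * kap x i = 0} := by
    intro x hx
    obtain ⟨m, hm, h⟩ := hcon x hx
    exact mem_iUnion.mpr ⟨⟨m, hm⟩, h⟩
  have hcount : (⋃ m : {m : Fin 5 → ℤ // m ≠ 0},
      {x : ℝ | ∑ i, ((m : Fin 5 → ℤ) i : ℝ) * kap x i = 0}).Countable := by
    refine countable_iUnion fun m => ?_
    obtain ⟨m, hm⟩ := m
    refine countable_zeros _ (fun x => ∑ i, (m i : ℝ) * (2 * (cc i / (1 + (cc i * x) ^ 2))))
      (fun x => ?_) ?_
    · exact HasDerivAt.fun_sum fun i _ => (hasDerivAt_kap i x).const_mul _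
    · have hm' : (fun i => (m i : ℝ) * 2) ≠ 0 := by
        obtain ⟨i, hi⟩ := Function.ne_iff.mp hm
        refine Function.ne_iff.mpr ⟨i, ?_⟩
        simpa using hi
      refine (finite_zeros cc cc_ne_zero cc_sq_ne _ hm').subset ?_
      intro x hx
      simp only [mem_ofPred_eq] at hx ⊢
      rw [← hx]
      exact Finset.sum_congr rfl fun i _ => by ring
  have := hcount.mono hsub
  rw [Cardinal.Real.Ioo_countable_iff] at this
  norm_num at this

lemma sin_two_arctan (t : ℝ) : Real.sin (2 * Real.arctan t) = 2 * t / (1 + t ^ 2) := by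
  rw [Real.sin_two_mul, Real.sin_arctan, Real.cos_arctan]
  have h : (0 : ℝ) < 1 + t ^ 2 := by positivity
  have h2 : √(1 + t ^ 2) * √(1 + t ^ 2) = 1 + t ^ 2 := Real.mul_self_sqrt h.le
  have h4 : 2 * (t / √(1 + t ^ 2)) * (1 / √(1 + t ^ 2)) =
      2 * t / (√(1 + t ^ 2) * √(1 + t ^ 2)) := by ring
  rw [h4, h2]

lemma cos_two_arctan (t : ℝ) : Real.cos (2 * Real.arctan t) = (1 - t ^ 2) / (1 + t ^ 2) := by
  rw [Real.cos_two_mul, Real.cos_sq_arctan]
  have h : (0 : ℝ) < 1 + t ^ 2 := by positivity
  field_simp
  ring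

lemma sin_kap (x : ℝ) (i : Fin 5) :
    Real.sin (kap x i) = 2 * (cc i * x) / (1 + (cc i * x) ^ 2) := by
  unfold kap
  split_ifs
  · rw [Real.sin_add_two_pi, sin_two_arctan]
  · rw [add_zero, sin_two_arctan]

lemma cos_kap (x : ℝ) (i : Fin 5) :
    Real.cos (kap x i) = (1 - (cc i * x) ^ 2) / (1 + (cc i * x) ^ 2) := by
  unfold kap
  split_ifs
  · rw [Real.cos_add_two_pi, cos_two_arctan]
  · rw [add_zero, cos_two_arctan]

lemma kap_pos {x : ℝ} (hx : 0 < x) (i : Fin 5) : 0 < kap x i := by
  unfold kap
  split_ifs with h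
  · have := Real.neg_pi_div_two_lt_arctan (cc i * x)
    have hpi := Real.pi_pos
    linarith
  · have hc : 0 < cc i := lt_of_le_of_ne (not_lt.mp h) (cc_ne_zero i).symm
    have : 0 < Real.arctan (cc i * x) := by
      rw [Real.arctan_pos]; positivity
    linarith

/-- the amplitudes -/
noncomputable def amp (x : ℝ) (i : Fin 5) : ℝ := (1 + (cc i * x) ^ 2) / (2 * (cc i * x))

lemma amp_mul_sin {x : ℝ} (hx : 0 < x) (i : Fin 5) : amp x i * Real.sin (kap x i) = 1 := by
  rw [sin_kap, amp]
  have h1 : cc i * x ≠ 0 := mul_ne_zero (cc_ne_zero i) hx.ne'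
  have h2 : (1 + (cc i * x) ^ 2) ≠ 0 := by positivity
  generalize cc i * x = a at *
  field_simp

lemma amp_mul_cos {x : ℝ} (hx : 0 < x) (i : Fin 5) :
    amp x i * Real.cos (kap x i) = (1 / (cc i) * x⁻¹ - cc i * x) / 2 := by
  rw [cos_kap, amp]
  have h0 := cc_ne_zero i
  have h1 : cc i * x ≠ 0 := mul_ne_zero h0 hx.ne'
  have h2 : (1 + (cc i * x) ^ 2) ≠ 0 := by positivity
  have h3 := hx.ne'
  have h4 : (1 + (cc i * x) ^ 2) / (2 * (cc i * x)) * ((1 - (cc i * x) ^ 2) / (1 + (cc i * x) ^ 2))
      = (1 - (cc i * x) ^ 2) / (2 * (cc i * x)) * ((1 + (cc i * x) ^ 2) / (1 + (cc i * x) ^ 2)) := by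
    ring
  rw [h4, div_self h2, mul_one]
  generalize cc i = a at *
  field_simp

lemma sum_amp {x : ℝ} (hx : 0 < x) : ∑ i, amp x i = 0 := by
  have : ∀ i, amp x i = (1 / (cc i) * x⁻¹ + cc i * x) / 2 := by
    intro i
    rw [amp]
    have h0 := cc_ne_zero i
    have h3 := hx.ne'
    generalize cc i = a at *
    field_simp
  simp only [this, Fin.sum_univ_five, cc]
  simp
  ring

lemma sum_amp_cos {x : ℝ} (hx : 0 < x) : ∑ i, amp x i * Real.cos (kap x i) = 0 := by
  simp only [amp_mul_cos hx, Fin.sum_univ_five, cc]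
  simp
  ring

lemma solves_sin (A k : ℝ) (s : Set ℝ) :
    Solves (k ^ 2) s (fun x => ((A * Real.sin (k * x) : ℝ) : ℂ))
      (fun x => ((A * (k * Real.cos (k * x)) : ℝ) : ℂ)) := by
  have hk : ∀ x : ℝ, HasDerivAt (fun x : ℝ => k * x) k x := fun x => by
    simpa using (hasDerivAt_id x).const_mul k
  refine ⟨fun x _ => ?_, fun x _ => ?_⟩
  · have h := ((hk x).sin.const_mul A).ofReal_comp
    have e : ((A * (Real.cos (k * x) * k) : ℝ) : ℂ) = ((A * (k * Real.cos (k * x)) : ℝ) : ℂ) := by
      push_cast
      ring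
    rw [e] at h
    exact h.hasDerivWithinAt
  · have h := (((hk x).cos.const_mul k).const_mul A).ofReal_comp
    have e : ((A * (k * (-Real.sin (k * x) * k)) : ℝ) : ℂ) =
        -(((k ^ 2 : ℝ) : ℂ) * ((A * Real.sin (k * x) : ℝ) : ℂ)) := by
      push_cast
      ring
    rw [e] at h
    exact h.hasDerivWithinAt

/-- **Embedded eigenvalues for irrational lengths.**  Let `N ≥ 1`.  The graph with two vertices
joined by five parallel edges and with `N` leads attached at one of them satisfies the standing
assumptions and has no loop, and for every `lam > 0` there are positive edge lengths that are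
linearly independent over `ℤ` for which `lam` is an eigenvalue. -/
theorem result (N : ℕ) (hN : 1 ≤ N) :
    (pumpkin N).Admissible ∧ (pumpkin N).Loopless ∧
      ∀ lam : ℝ, 0 < lam → ∃ ℓ : Fin 5 → ℝ, (∀ e, 0 < ℓ e) ∧ LinearIndependent ℤ ℓ ∧
        IsEigenvalue (pumpkin N) ℓ lam := by
  have hadj : ∀ v w : Fin 2, v ≠ w → (pumpkin N).Adj v w := by
    intro v w hvw
    refine ⟨0, ?_⟩
    fin_cases v <;> fin_cases w <;> simp_all [pumpkin]
  refine ⟨⟨⟨0⟩, ?_, ⟨0, ?_⟩, ?_⟩, ?_, ?_⟩
  · intro v w
    by_cases h : v = w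
    · rw [h]
    · exact Relation.ReflTransGen.single (hadj v w h)
  · simpa [pumpkin] using hN
  · intro v
    fin_cases v
    · simp [OpenGraph.degree, pumpkin]
      omega
    · simp [OpenGraph.degree, pumpkin]
  · intro e
    simp [pumpkin]
  · intro lam hlam
    obtain ⟨x, hx, hind⟩ := exists_irrational
    have hx0 : 0 < x := hx.1
    set k : ℝ := √lam with hk
    have hk0 : 0 < k := Real.sqrt_pos.mpr hlam
    have hk2 : k ^ 2 = lam := Real.sq_sqrt hlam.le
    refine ⟨fun i => kap x i / k, fun e => div_pos (kap_pos hx0 e) hk0, ?_, ⟨?_⟩⟩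
    · rw [Fintype.linearIndependent_iff]
      intro m hm
      by_contra hne
      push Not at hne
      obtain ⟨i, hi⟩ := hne
      have hm0 : m ≠ 0 := fun h => hi (by rw [h]; rfl)
      apply hind m hm0
      have : ∑ i, m i • (kap x i / k) = (∑ i, (m i : ℝ) * kap x i) / k := by
        rw [Finset.sum_div]
        exact Finset.sum_congr rfl fun i _ => by rw [zsmul_eq_mul]; ring
      rw [this] at hm
      rcases div_eq_zero_iff.mp hm with h | h
      · exact h
      · exact absurd h hk0.ne'
    · have hkk : ∀ i, k * (kap x i / k) = kap x i := fun i => by field_simp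
      refine
        { edge := fun i s => ((amp x i * Real.sin (k * s) : ℝ) : ℂ)
          edge' := fun i s => ((amp x i * (k * Real.cos (k * s)) : ℝ) : ℂ)
          lead := fun _ _ _ => 0
          lead' := fun _ _ _ => 0
          val := ![0, 1]
          edge_solves := ?_
          lead_solves := ?_
          lead_memLp := ?_
          edge_src := ?_
          edge_tgt := ?_
          lead_val := ?_
          kirchhoff := ?_
          nonzero := ?_ }
      · intro e
        have := solves_sin (amp x e) k (Icc 0 (kap x e / k))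
        rwa [hk2] at this
      · intro w i
        refine ⟨fun x _ => ?_, fun x _ => ?_⟩
        · exact hasDerivWithinAt_const _ _ _
        · simpa using hasDerivWithinAt_const x (Ici (0 : ℝ)) (0 : ℂ)
      · intro w i
        exact MemLp.zero'
      · intro e
        simp [pumpkin]
      · intro e
        rw [hkk e, amp_mul_sin hx0 e]
        simp [pumpkin]
      · intro w i
        fin_cases w
        · simp
        · exact absurd i.2 (by simp [pumpkin])
      · intro w
        have e1 : ∑ e : Fin 5, ((amp x e * (k * Real.cos (k * 0)) : ℝ) : ℂ) = 0 := by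
          rw [← Complex.ofReal_sum]
          have : ∑ i, amp x i * (k * Real.cos (k * 0)) = k * ∑ i, amp x i := by
            rw [Finset.mul_sum]
            exact Finset.sum_congr rfl fun i _ => by simp; ring
          rw [this, sum_amp hx0]
          simp
        have e2 : ∑ e : Fin 5, ((amp x e * (k * Real.cos (k * (kap x e / k))) : ℝ) : ℂ) = 0 := by
          rw [← Complex.ofReal_sum]
          have : ∑ i, amp x i * (k * Real.cos (k * (kap x i / k))) =
              k * ∑ i, amp x i * Real.cos (kap x i) := by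
            rw [Finset.mul_sum]
            exact Finset.sum_congr rfl fun i _ => by rw [hkk i]; ring
          rw [this, sum_amp_cos hx0]
          simp
        fin_cases w
        · simp only [pumpkin, Fin.zero_eta, Finset.filter_true, Fin.isValue, one_ne_zero,
            Finset.filter_false, Finset.sum_empty, sub_zero, Finset.sum_const_zero, add_zero]
          exact e1
        · simp only [pumpkin, Fin.mk_one, Fin.isValue, zero_ne_one, Finset.filter_false,
            Finset.sum_empty, Finset.filter_true, zero_sub, Finset.sum_const_zero, add_zero,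
            neg_eq_zero]
          exact e2
      · left
        refine ⟨0, kap x 0 / k, ⟨(div_pos (kap_pos hx0 0) hk0).le, le_rfl⟩, ?_⟩
        rw [hkk 0, amp_mul_sin hx0 0]
        simp

end Pool.Agent.Results.MP_332ffb_mp.IrrationalEmbedded
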